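import Pool.Agent.LPK.Stmts

/-!
# Row GPO of squad LPK (MP_37fa12_co): Poisson summation for one vector
-/

set_option autoImplicit false

open scoped RealInnerProductSpace

namespace Pool.Agent.LPK.H46

theorem gpo (h : PlmStmt) : GpoStmt := by
  intro n κ b b' hd g hg
  have h1 := h n κ b b' hd g hg 0
  have h0 : ‖(0 : V n)‖ ^ 2 = 0 := by simp
  simp only [inner_zero_right, h0] at h1
  exact h1

end Pool.Agent.LPK.H46
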